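import Pool.Agent.Helper74.UB.Final

/-!
# Average degree and the surviving rate of planar graphs: the threshold is at most `26 / 7`

For every `M > 26 / 7` there is no constant `c > 0` such that all planar graphs `G` with average
degree at most `M - ε` satisfy `ρ(G) ≥ c ε`.
-/

namespace Pool.Agent.Results.MP_cd9ac2_co.UpperBound

open Finset
open scoped Classical

/-! ## The firefighter process -/

/-- The vertices that are protected at time `t`, if `σ s` is the set of vertices chosen at
time `s = 1, 2, …`. -/
noncomputable def prot {V : Type} (σ : ℕ → Finset V) (t : ℕ) : Finset V :=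
  (Icc 1 t).biUnion σ

/-- The vertices that are burning at time `t`: at time `0` only `v`; at time `t + 1` also all
neighbours of burning vertices that are not protected. -/
noncomputable def burn {V : Type} [Fintype V] (G : SimpleGraph V) (v : V) (σ : ℕ → Finset V) :
    ℕ → Finset V
  | 0 => {v}
  | t + 1 => burn G v σ t ∪
      univ.filter fun y => y ∉ prot σ (t + 1) ∧ ∃ x ∈ burn G v σ t, G.Adj x y

/-- `σ` is a strategy of one firefighter: at each time `t ≥ 1` at most one vertex is chosen, and
it is not on fire. -/
def Legal {V : Type} [Fintype V] (G : SimpleGraph V) (v : V) (σ : ℕ → Finset V) : Prop :=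
  ∀ t, 1 ≤ t → (σ t).card ≤ 1 ∧ Disjoint (σ t) (burn G v σ (t - 1))

/-- The vertices that never burn. -/
noncomputable def saved {V : Type} [Fintype V] (G : SimpleGraph V) (v : V)
    (σ : ℕ → Finset V) : Finset V :=
  univ.filter fun y => ∀ t, y ∉ burn G v σ t

/-- The largest number of vertices that can be saved if the fire starts at `v`. -/
noncomputable def sn {V : Type} [Fintype V] (G : SimpleGraph V) (v : V) : ℕ :=
  sSup {m | ∃ σ, Legal G v σ ∧ (saved G v σ).card = m}

/-- The surviving rate. -/
noncomputable def rho {V : Type} [Fintype V] (G : SimpleGraph V) : ℝ :=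
  1 / (Fintype.card V : ℝ) ^ 2 * ∑ v, (sn G v : ℝ)

/-! ## Planar graphs -/

/-- The reversal of the darts (oriented edges) of `H`. -/
def rev {V : Type} (H : SimpleGraph V) : Equiv.Perm H.Dart :=
  Function.Involutive.toPerm SimpleGraph.Dart.symm SimpleGraph.Dart.symm_involutive

/-- `σ` is a rotation system of `H`: a permutation of the darts of `H` that permutes, for each
vertex `v`, the darts with initial vertex `v` in a single cycle. -/
def IsRotation {V : Type} (H : SimpleGraph V) (σ : Equiv.Perm H.Dart) : Prop :=
  ∀ d e : H.Dart, σ.SameCycle d e ↔ d.fst = e.fst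

/-- The number of faces of a rotation system: the number of cycles of the face permutation
`σ ∘ rev`. -/
noncomputable def numFaces {V : Type} (H : SimpleGraph V) (σ : Equiv.Perm H.Dart) : ℕ :=
  Nat.card (Quotient (Equiv.Perm.SameCycle.setoid (σ * rev H)))

/-- A finite graph is planar if it has at most one vertex or if it is a spanning subgraph of a
connected graph `H` with a rotation system of genus `0`, that is `|V| - |E| + |F| = 2`. -/
def Planar {V : Type} (G : SimpleGraph V) : Prop :=
  Nat.card V ≤ 1 ∨ ∃ H : SimpleGraph V, G ≤ H ∧ H.Connected ∧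
    ∃ σ : Equiv.Perm H.Dart, IsRotation H σ ∧ Nat.card V + numFaces H σ = Nat.card H.edgeSet + 2

/-- The average degree `2 m / n`. -/
noncomputable def avgDeg {V : Type} [Fintype V] (G : SimpleGraph V) : ℝ :=
  2 * (G.edgeSet.ncard : ℝ) / (Fintype.card V : ℝ)

/-- `M` is good with the constant `c`: every planar graph with `n ≥ 2` vertices and average degree
at most `M - ε`, where `ε > 0`, has surviving rate at least `c * ε`. -/
def GoodWith (M c : ℝ) : Prop :=
  ∀ ε : ℝ, 0 < ε → ∀ (V : Type) [Fintype V] (G : SimpleGraph V), 2 ≤ Fintype.card V →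
    Planar G → avgDeg G ≤ M - ε → c * ε ≤ rho G

/-! ## Comparison with the definitions used in the proof -/

theorem burn_eq {V : Type} [Fintype V] (G : SimpleGraph V) (v : V) (σ : ℕ → Finset V) (t : ℕ) :
    burn G v σ t = Pool.Agent.Helper34.FF.burn G v σ t := by
  induction t with
  | zero => rfl
  | succ t ih =>
    rw [burn, Pool.Agent.Helper34.FF.burn, ih]
    rfl

theorem legal_iff {V : Type} [Fintype V] (G : SimpleGraph V) (v : V)
    (σ : ℕ → Finset V) : Legal G v σ ↔ Pool.Agent.Helper34.FF.Legal G 1 v σ := by
  unfold Legal Pool.Agent.Helper34.FF.Legal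
  simp only [burn_eq]

theorem saved_eq {V : Type} [Fintype V] (G : SimpleGraph V) (v : V) (σ : ℕ → Finset V) :
    saved G v σ = Pool.Agent.Helper34.FF.saved G v σ := by
  unfold saved Pool.Agent.Helper34.FF.saved
  simp only [burn_eq]

theorem sn_eq {V : Type} [Fintype V] (G : SimpleGraph V) (v : V) :
    sn G v = Pool.Agent.Helper34.FF.sn 1 G v := by
  unfold sn Pool.Agent.Helper34.FF.sn
  simp only [legal_iff, saved_eq]

theorem rho_eq {V : Type} [Fintype V] (G : SimpleGraph V) :
    rho G = Pool.Agent.Helper34.FF.rho 1 G := by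
  unfold rho Pool.Agent.Helper34.FF.rho
  simp only [sn_eq]
  ring

/-! ## The theorem -/

/-- **The threshold is at most `26 / 7`.** No real number `M > 26 / 7` is good, with any constant
`c > 0`. -/
theorem result : ∀ M c : ℝ, 26 / 7 < M → 0 < c → ¬ GoodWith M c := by
  intro M c hM hc hg
  obtain ⟨V, _, G, h2, hp, ha, hr⟩ := Pool.Agent.Helper74.UB.final
    (min ((M - 26 / 7) / 2) (c * ((M - 26 / 7) / 2))) (lt_min (by linarith) (by
      apply mul_pos hc; linarith))
  have h3 := hg ((M - 26 / 7) / 2) (by linarith) V G h2 (Or.inr hp) (by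
    unfold avgDeg
    have := min_le_left ((M - 26 / 7) / 2) (c * ((M - 26 / 7) / 2))
    linarith)
  rw [rho_eq] at h3
  have := min_le_right ((M - 26 / 7) / 2) (c * ((M - 26 / 7) / 2))
  linarith

end Pool.Agent.Results.MP_cd9ac2_co.UpperBound
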